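import Mathlib

/-!
# MP_081fbf_lc : the relative string rewriting system `R/S` terminates

Each word is cut at its letters `c` into segments.  A segment gets a natural number by the affine
interpretation `[b](h) = h + 1`, `[a](h) = h + 4`, `[d](h) = 3 h + 1`, and a word gets the list of
the numbers of its segments, compared lexicographically from the left (the number of letters `c`
never changes).  Steps of `S` keep the list, steps of `R` make it strictly smaller.
-/

namespace Pool.Agent.Results.MP_081fbf_lc.RelativeTermination

/-- The four letters. -/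
inductive Letter
  | a | b | c | d

open Letter

/-- A string rewriting system: a list of rules `(l, r)`, read `l → r`. -/
abbrev SRS := List (List Letter × List Letter)

/-- One rewrite step of the system `T`. -/
def Step (T : SRS) (x y : List Letter) : Prop :=
  ∃ u v l r : List Letter, (l, r) ∈ T ∧ x = u ++ l ++ v ∧ y = u ++ r ++ v

/-- The strict rules. -/
def R : SRS :=
  [([a, d], [d, b]), ([a], [b, b, b]), ([d], []), ([a], []), ([b, c], [c, d, d]),
    ([a, c], [b, b, c, d])]

/-- The non-strict rules. -/
def S : SRS := [([b, d, b], [a, d]), ([a, d], [b, d, b])]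

/-- `A` terminates relative to `B`: every infinite rewrite sequence of `A ∪ B` has only finitely
many steps which are steps of `A`. -/
def SNRel (A B : SRS) : Prop :=
  ∀ x : ℕ → List Letter, (∀ n, Step A (x n) (x (n + 1)) ∨ Step B (x n) (x (n + 1))) →
    {n : ℕ | Step A (x n) (x (n + 1))}.Finite

/-- Numbers of the segments: first segment and the others. -/
def val : List Letter → ℕ × List ℕ
  | [] => (0, [])
  | Letter.a :: w => ((val w).1 + 4, (val w).2)
  | Letter.b :: w => ((val w).1 + 1, (val w).2)
  | Letter.d :: w => (3 * (val w).1 + 1, (val w).2)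
  | Letter.c :: w => (0, (val w).1 :: (val w).2)

/-- Lexicographic comparison of lists of the same length. -/
inductive Lt : List ℕ → List ℕ → Prop
  | head {m n : ℕ} {s t : List ℕ} (h : m < n) (hl : s.length = t.length) : Lt (m :: s) (n :: t)
  | tail {n : ℕ} {s t : List ℕ} (h : Lt s t) : Lt (n :: s) (n :: t)

theorem Lt.len {s t : List ℕ} (h : Lt s t) : s.length = t.length := by
  induction h with
  | head _ hl => simp [hl]
  | tail _ ih => simp [ih]

theorem acc_lt : ∀ (k : ℕ) (l : List ℕ), l.length = k → Acc Lt l := by
  intro k
  induction k with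
  | zero =>
    intro l hl
    have : l = [] := List.length_eq_zero_iff.mp hl
    subst this
    exact Acc.intro _ (fun y hy => by cases hy)
  | succ k ih =>
    have key : ∀ n : ℕ, ∀ t : List ℕ, t.length = k → Acc Lt (n :: t) := by
      intro n
      induction n using Nat.strong_induction_on with
      | _ n ihn =>
        intro t ht
        have hacc := ih t ht
        induction hacc with
        | intro t _ iht =>
          refine Acc.intro _ (fun y hy => ?_)
          cases hy with
          | head h hl => exact ihn _ h _ (hl.trans ht)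
          | tail h => exact iht _ h (h.len.trans ht)
    intro l hl
    match l, hl with
    | n :: t, hl => exact key n t (by simpa using hl)

/-- The list of numbers of a word. -/
def meas (w : List Letter) : List ℕ := (val w).1 :: (val w).2

theorem lt_cases {p q : ℕ × List ℕ} (h : Lt (p.1 :: p.2) (q.1 :: q.2)) :
    (p.1 < q.1 ∧ p.2.length = q.2.length) ∨ (p.1 = q.1 ∧ Lt p.2 q.2) := by
  obtain ⟨p1, p2⟩ := p
  obtain ⟨q1, q2⟩ := q
  cases h with
  | head h hl => exact Or.inl ⟨h, hl⟩
  | tail h => exact Or.inr ⟨rfl, h⟩

theorem lt_of_cases {p q : ℕ × List ℕ}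
    (h : (p.1 < q.1 ∧ p.2.length = q.2.length) ∨ (p.1 = q.1 ∧ Lt p.2 q.2)) :
    Lt (p.1 :: p.2) (q.1 :: q.2) := by
  rcases h with ⟨h, hl⟩ | ⟨h, hl⟩
  · exact Lt.head h hl
  · rw [h]; exact Lt.tail hl

theorem meas_cons_lt (ℓ : Letter) {s t : List Letter} (h : Lt (meas s) (meas t)) :
    Lt (meas (ℓ :: s)) (meas (ℓ :: t)) := by
  have h' := lt_cases h
  cases ℓ with
  | a =>
    apply lt_of_cases
    rcases h' with ⟨h1, h2⟩ | ⟨h1, h2⟩
    · left; refine ⟨?_, h2⟩
      change (val s).1 + 4 < (val t).1 + 4
      omega
    · right; refine ⟨?_, h2⟩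
      change (val s).1 + 4 = (val t).1 + 4
      omega
  | b =>
    apply lt_of_cases
    rcases h' with ⟨h1, h2⟩ | ⟨h1, h2⟩
    · left; refine ⟨?_, h2⟩
      change (val s).1 + 1 < (val t).1 + 1
      omega
    · right; refine ⟨?_, h2⟩
      change (val s).1 + 1 = (val t).1 + 1
      omega
  | d =>
    apply lt_of_cases
    rcases h' with ⟨h1, h2⟩ | ⟨h1, h2⟩
    · left; refine ⟨?_, h2⟩
      change 3 * (val s).1 + 1 < 3 * (val t).1 + 1
      omega
    · right; refine ⟨?_, h2⟩
      change 3 * (val s).1 + 1 = 3 * (val t).1 + 1
      omega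
  | c => exact Lt.tail h

theorem meas_append_lt (u : List Letter) {s t : List Letter} (h : Lt (meas s) (meas t)) :
    Lt (meas (u ++ s)) (meas (u ++ t)) := by
  induction u with
  | nil => simpa using h
  | cons ℓ u ih => exact meas_cons_lt ℓ ih

theorem val_append_eq (u : List Letter) {s t : List Letter} (h : val s = val t) :
    val (u ++ s) = val (u ++ t) := by
  induction u with
  | nil => simpa using h
  | cons ℓ u ih => cases ℓ <;> simp only [List.cons_append, val, ih]

theorem step_R {x y : List Letter} (h : Step R x y) : Lt (meas y) (meas x) := by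
  obtain ⟨u, v, l, r, hm, rfl, rfl⟩ := h
  rw [List.append_assoc, List.append_assoc]
  apply meas_append_lt
  simp only [R, List.mem_cons, Prod.mk.injEq, List.not_mem_nil, or_false] at hm
  rcases hm with ⟨rfl, rfl⟩ | ⟨rfl, rfl⟩ | ⟨rfl, rfl⟩ | ⟨rfl, rfl⟩ | ⟨rfl, rfl⟩ | ⟨rfl, rfl⟩
  · apply Lt.head _ rfl
    change 3 * ((val v).1 + 1) + 1 < 3 * (val v).1 + 1 + 4
    omega
  · apply Lt.head _ rfl
    change (val v).1 + 1 + 1 + 1 < (val v).1 + 4
    omega
  · apply Lt.head _ rfl
    change (val v).1 < 3 * (val v).1 + 1
    omega
  · apply Lt.head _ rfl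
    change (val v).1 < (val v).1 + 4
    omega
  · apply lt_of_cases
    left
    refine ⟨?_, rfl⟩
    change 0 < 0 + 1
    omega
  · apply lt_of_cases
    left
    refine ⟨?_, rfl⟩
    change 0 + 1 + 1 < 0 + 4
    omega

theorem step_S {x y : List Letter} (h : Step S x y) : val y = val x := by
  obtain ⟨u, v, l, r, hm, rfl, rfl⟩ := h
  rw [List.append_assoc, List.append_assoc]
  apply val_append_eq
  simp only [S, List.mem_cons, Prod.mk.injEq, List.not_mem_nil, or_false] at hm
  rcases hm with ⟨rfl, rfl⟩ | ⟨rfl, rfl⟩
  · change (3 * (val v).1 + 1 + 4, (val v).2) = (3 * ((val v).1 + 1) + 1 + 1, (val v).2)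
    congr 1
  · change (3 * ((val v).1 + 1) + 1 + 1, (val v).2) = (3 * (val v).1 + 1 + 4, (val v).2)
    congr 1

/-- **MP_081fbf_lc, Q1.** `SN(R/S)` holds. -/
theorem result : SNRel R S := by
  intro x hx
  have main : ∀ l : List ℕ, Acc Lt l → ∀ n, meas (x n) = l →
      {m : ℕ | n ≤ m ∧ Step R (x m) (x (m + 1))}.Finite := by
    intro l hl
    induction hl with
    | intro l _ ih =>
      intro n hn
      by_cases hex : ∃ m, n ≤ m ∧ Step R (x m) (x (m + 1))
      · classical
        set m0 := Nat.find hex with hm0
        have hm0s := Nat.find_spec hex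
        rw [← hm0] at hm0s
        have hmin : ∀ j, n ≤ j → j < m0 → ¬ Step R (x j) (x (j + 1)) := by
          intro j hj hlt hs
          exact Nat.find_min hex (by rw [← hm0]; exact hlt) ⟨hj, hs⟩
        have hconst : ∀ j, n + j ≤ m0 → val (x (n + j)) = val (x n) := by
          intro j
          induction j with
          | zero => intro _; rfl
          | succ j ihj =>
            intro hj
            have h1 := ihj (by omega)
            rcases hx (n + j) with h | h
            · exact absurd h (hmin _ (by omega) (by omega))
            · have := step_S h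
              rw [show n + (j + 1) = n + j + 1 by ring, this, h1]
        have hv : val (x m0) = val (x n) := by
          have := hconst (m0 - n) (by omega)
          rwa [show n + (m0 - n) = m0 by omega] at this
        have hlt : Lt (meas (x (m0 + 1))) l := by
          have h1 := step_R hm0s.2
          have h2 : meas (x m0) = l := by
            rw [← hn]; unfold meas; rw [hv]
          rwa [h2] at h1
        have hfin := ih _ hlt (m0 + 1) rfl
        apply (hfin.union (Set.finite_singleton m0)).subset
        intro m hm
        rcases lt_trichotomy m m0 with h | h | h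
        · exact absurd hm.2 (hmin m hm.1 h)
        · right; exact h
        · left; exact ⟨h, hm.2⟩
      · have : {m : ℕ | n ≤ m ∧ Step R (x m) (x (m + 1))} = ∅ := by
          ext m
          constructor
          · intro hm; exact absurd ⟨m, hm⟩ hex
          · intro hm; exact absurd hm (Set.notMem_empty m)
        rw [this]
        exact Set.finite_empty
  have h := main _ (acc_lt _ _ rfl) 0 rfl
  apply h.subset
  intro m hm
  exact ⟨Nat.zero_le _, hm⟩

end Pool.Agent.Results.MP_081fbf_lc.RelativeTermination
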